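import Pool.Agent.helper84.QI.Spec
import Pool.Agent.helper44.ProP

/-!
# Project QI (MP_fd6eef_al), row QIV: a counterexample is not virtually abelian
-/

set_option autoImplicit false

namespace Pool.Agent.QI

/-- subgroups of finite index of infinite groups are infinite -/
theorem QIV_inf {G : Type} [Group G] [Infinite G] (A : Subgroup G) (hA : A.FiniteIndex) : Infinite A := by
  by_contra h
  rw [not_infinite_iff_finite] at h
  have h1 : Nat.card A * A.index = Nat.card G := A.card_mul_index
  have h2 : Nat.card G = 0 := Nat.card_eq_zero_of_infinite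
  rw [h2, Nat.mul_eq_zero] at h1
  rcases h1 with h1 | h1
  · exact Nat.card_pos.ne' h1
  · exact hA.index_ne_zero h1

theorem QIV : QIV_stmt := by
  intro G _ a b hCE A hA hab
  have := hA
  have := hCE.inf
  have hAinf : Infinite A := QIV_inf A hA
  let _ : CommGroup A := { (inferInstance : Group A) with mul_comm := fun x y => Subtype.ext (hab x x.2 y y.2) }
  obtain ⟨N, -, hNf, hNb⟩ := Pool.Agent.helper44.ProP.main_abelian a b hCE.gen A (B := Additive A)
    { toFun := fun x => Multiplicative.ofAdd (Additive.ofMul x), map_one' := rfl, map_mul' := fun _ _ => rfl }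
    (fun y => ⟨y, rfl⟩)
  have hNinf : Infinite N := QIV_inf N hNf
  have h3 : (N : Set G).Finite := hCE.fin.subset fun g hg => hNb g hg
  exact h3.not_infinite (Set.infinite_coe_iff.1 hNinf)

end Pool.Agent.QI
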